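import Pool.Agent.U481.VL.LyapD
import Pool.Agent.U481.VL.Bas
import Pool.Agent.TH305.AX.Touch

/-!
Axisymmetric fields: the vorticity, weighted with a function of the swirl.
-/

set_option autoImplicit false

open MeasureTheory Set Metric Filter Topology
open scoped ContDiff
open H459R3.NS Pool.Agent.W268.NS Pool.Agent.Q67.VD
open Pool.Agent.Q199.VD

namespace Pool.Agent.U481.SW

open Pool.Agent.Q85.CC Pool.Agent.Q85.CL Pool.Agent.Q85.VL Pool.Agent.Q151.CC
open Pool.Agent.TH305.AX

/-- A smooth step which separates two closed sets. -/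
lemma exists_step {A B : Set ℝ} (hA : IsClosed A) (hB : IsClosed B) (hd : Disjoint A B) :
    ∃ s : ℝ → ℝ, ContDiff ℝ ∞ s ∧ (∀ x ∈ A, s x = -1) ∧ (∀ x ∈ B, s x = 1) ∧ ∀ x, |s x| ≤ 1 := by
  obtain ⟨f, h0, h1, h2⟩ := exists_contMDiffMap_zero_one_of_isClosed (n := ⊤)
    (modelWithCornersSelf ℝ ℝ) hA hB hd
  refine ⟨fun x => 2 * f x - 1, ?_, fun x hx => ?_, fun x hx => ?_, fun x => ?_⟩
  · have h3 : ContDiff ℝ ∞ f := f.contMDiff.contDiff
    fun_prop
  · have h3 : f x = 0 := h0 hx
    show 2 * f x - 1 = -1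
    rw [h3]
    norm_num
  · have h3 : f x = 1 := h1 hx
    show 2 * f x - 1 = 1
    rw [h3]
    norm_num
  · have h3 := h2 x
    show |2 * f x - 1| ≤ 1
    rw [abs_le]
    constructor <;> linarith [h3.1, h3.2]

/-- If `G` is constant along the curves of the vorticity then `s(G) ω` is free of divergence. -/
lemma wd_lev {v : V → V} (hv : SM v) {G : V → ℝ} (hG : ContDiff ℝ ∞ G) {a : V} {R : ℝ}
    (h0 : ∀ y ∈ closedBall a R, fderiv ℝ G y (vort v y) = 0) {s : ℝ → ℝ} (hs : ContDiff ℝ ∞ s) :
    WD R a (fun y => s (G y) • vort v y) := by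
  refine ⟨(hs.continuous.comp hG.continuous).smul (vort_df hv).cont, fun F hF hts => ?_⟩
  have hsG : ContDiff ℝ 1 (fun y => s (G y)) := (hs.comp hG).of_le (by norm_cast)
  have h1 := ((vort_df hv).wd R a).div (fun y => s (G y) * F y) (hsG.mul hF)
    ((closure_mono (Function.support_mul_subset_right _ _)).trans hts)
  rw [← h1]
  refine setIntegral_congr_fun measurableSet_closedBall fun y hy => ?_
  have d1 : HasFDerivAt (fun y => s (G y)) (deriv s (G y) • fderiv ℝ G y) y := by
    have e1 : HasDerivAt s (deriv s (G y)) (G y) :=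
      ((hs.differentiable (by norm_cast)) _).hasDerivAt
    exact e1.comp_hasFDerivAt y ((hG.differentiable (by norm_cast)) y).hasFDerivAt
  have d2 : HasFDerivAt F (fderiv ℝ F y) y := ((hF.differentiable one_ne_zero) y).hasFDerivAt
  have d3 : HasFDerivAt (fun y => s (G y) * F y)
      (s (G y) • fderiv ℝ F y + F y • deriv s (G y) • fderiv ℝ G y) y := d1.mul d2
  rw [d3.fderiv]
  simp only [map_smul, add_apply, smul_apply,
    smul_eq_mul, h0 y hy]
  ring

/-- The cut-off function of a neighbourhood of the axis. -/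
noncomputable def chi (δ : ℝ) (y : V) : ℝ := max 0 (min 1 (2 - sg y / δ))

lemma chi_cont (δ : ℝ) : Continuous (chi δ) := by
  unfold chi sg
  fun_prop

lemma chi_nn (δ : ℝ) (y : V) : 0 ≤ chi δ y := le_max_left _ _

lemma chi_le (δ : ℝ) (y : V) : chi δ y ≤ 1 := max_le zero_le_one (min_le_left _ _)

lemma chi_one {δ : ℝ} (hδ : 0 < δ) {y : V} (h : sg y ≤ δ) : chi δ y = 1 := by
  unfold chi
  have h1 : sg y / δ ≤ 1 := (div_le_one hδ).2 h
  rw [min_eq_left (by linarith), max_eq_right zero_le_one]

lemma chi_zero {δ : ℝ} (hδ : 0 < δ) {y : V} (h : 2 * δ ≤ sg y) : chi δ y = 0 := by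
  unfold chi
  have h1 : 2 ≤ sg y / δ := (le_div_iff₀ hδ).2 h
  rw [min_eq_right (by linarith), max_eq_left (by linarith)]

/-- The comparison field at one time. -/
theorem field_t {v : V → V} (hv : SM v) {G : V → ℝ} (hG : ContDiff ℝ ∞ G) {a : V} {R κ δ η : ℝ}
    (hκ : 0 < κ) (hδ : 0 < δ) (hη : 0 < η)
    (h0 : ∀ y ∈ closedBall a R, fderiv ℝ G y (vort v y) = 0)
    {m : V → ℝ} (hm : Continuous m) (hm0 : ∀ y, 0 ≤ m y) {g : V → ℝ} (hg : ContDiff ℝ 1 g)
    (hlip : ∀ y z, |g y - g z| ≤ len (y - z))
    (H : ∀ x ∈ closedBall a R, ∀ y ∈ closedBall a R, 0 < sg x → 0 < sg y → G x = G y →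
      m x < om v x → m y < om v y → κ * om v x ≤ fderiv ℝ g x (vort v x) ∨
        fderiv ℝ g y (vort v y) ≤ -(κ * om v y)) :
    ∃ W : V → V, WD R a W ∧ (∀ y, len (W y) ≤ om v y) ∧
      ∀ y ∈ closedBall a R,
        κ / 2 * om v y ≤ fderiv ℝ g y (W y) + (1 + κ) * (m y + η + om v y * chi δ y) := by
  have hsgc : Continuous sg := by
    unfold sg
    fun_prop
  have homc : Continuous (om v) := om_contL hv
  have hfc : Continuous fun y => fderiv ℝ g y (vort v y) :=
    (hg.continuous_fderiv one_ne_zero).clm_apply (vort_df hv).cont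
  obtain ⟨P, hP⟩ : ∃ P : Set V, P = closedBall a R ∩ {y | δ ≤ sg y} ∩ {y | m y + η ≤ om v y} ∩
      {y | fderiv ℝ g y (vort v y) ≤ κ / 2 * om v y} := ⟨_, rfl⟩
  obtain ⟨N, hN⟩ : ∃ N : Set V, N = closedBall a R ∩ {y | δ ≤ sg y} ∩ {y | m y + η ≤ om v y} ∩
      {y | -(κ / 2 * om v y) ≤ fderiv ℝ g y (vort v y)} := ⟨_, rfl⟩
  have hPc : IsCompact P := by
    rw [hP]
    refine (((isCompact_closedBall a R).inter_right (isClosed_le continuous_const hsgc)).inter_right
      (isClosed_le (hm.add continuous_const) homc)).inter_right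
      (isClosed_le hfc (continuous_const.mul homc))
  have hNc : IsCompact N := by
    rw [hN]
    refine (((isCompact_closedBall a R).inter_right (isClosed_le continuous_const hsgc)).inter_right
      (isClosed_le (hm.add continuous_const) homc)).inter_right
      (isClosed_le (continuous_const.mul homc).neg hfc)
  have hdis : Disjoint (G '' P) (G '' N) := by
    rw [Set.disjoint_left]
    rintro _ ⟨x, hx, rfl⟩ ⟨y, hy, hxy⟩
    rw [hP] at hx
    rw [hN] at hy
    obtain ⟨⟨⟨hx1, hx2⟩, hx3⟩, hx4⟩ := hx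
    obtain ⟨⟨⟨hy1, hy2⟩, hy3⟩, hy4⟩ := hy
    simp only [mem_ofPred_eq] at hx2 hx3 hx4 hy2 hy3 hy4
    have px : 0 < om v x := by linarith [hm0 x]
    have py : 0 < om v y := by linarith [hm0 y]
    have qx : 0 < κ * om v x := by positivity
    have qy : 0 < κ * om v y := by positivity
    rcases H x hx1 y hy1 (hδ.trans_le hx2) (hδ.trans_le hy2) hxy.symm (by linarith)
      (by linarith) with h | h
    · linarith
    · linarith
  obtain ⟨s, hs, hs1, hs2, hs3⟩ := exists_step (hPc.image hG.continuous).isClosed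
    (hNc.image hG.continuous).isClosed hdis
  refine ⟨fun y => s (G y) • vort v y, wd_lev hv hG h0 hs, fun y => ?_, fun y hy => ?_⟩
  · show len (s (G y) • vort v y) ≤ om v y
    rw [len_smulI]
    exact mul_le_of_le_one_left (om_nnL _ _) (hs3 _)
  · show κ / 2 * om v y ≤ fderiv ℝ g y (s (G y) • vort v y) + _
    have ho := om_nnL v y
    have hc0 := chi_nn δ y
    have hc1 : 0 ≤ om v y * chi δ y := mul_nonneg ho hc0
    have hb : -om v y ≤ fderiv ℝ g y (s (G y) • vort v y) := by
      have h1 := (abs_le.1 (Pool.Agent.U481.VL.fderiv_le_len ((hg.differentiable one_ne_zero) y)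
        hlip (s (G y) • vort v y))).1
      rw [len_smulI] at h1
      have h2 : |s (G y)| * len (vort v y) ≤ om v y := mul_le_of_le_one_left ho (hs3 _)
      linarith
    have hκo : 0 ≤ κ * om v y := by positivity
    by_cases hc : sg y ≤ δ
    · rw [chi_one hδ hc]
      have h3 : 0 ≤ κ * (m y + η) := by
        have := hm0 y
        positivity
      have h4 := hm0 y
      nlinarith
    · push Not at hc
      by_cases hmy : om v y < m y + η
      · have h5 : κ * om v y ≤ κ * (m y + η) := mul_le_mul_of_nonneg_left hmy.le hκ.le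
        have h6 : 0 ≤ κ * (om v y * chi δ y) := by positivity
        nlinarith
      · push Not at hmy
        have h7 : 0 ≤ (1 + κ) * (m y + η + om v y * chi δ y) := by
          have := hm0 y
          positivity
        rw [map_smul, smul_eq_mul]
        by_cases hyP : y ∈ P
        · have hyN : y ∉ N := fun hyN => Set.disjoint_left.1 hdis (mem_image_of_mem G hyP)
            (mem_image_of_mem G hyN)
          rw [hs1 _ (mem_image_of_mem G hyP)]
          have h8 : fderiv ℝ g y (vort v y) < -(κ / 2 * om v y) := by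
            by_contra hcon
            push Not at hcon
            apply hyN
            rw [hN]
            exact ⟨⟨⟨hy, hc.le⟩, hmy⟩, hcon⟩
          linarith
        · have h8 : κ / 2 * om v y < fderiv ℝ g y (vort v y) := by
            by_contra hcon
            push Not at hcon
            apply hyP
            rw [hP]
            exact ⟨⟨⟨hy, hc.le⟩, hmy⟩, hcon⟩
          have hyN : y ∈ N := by
            rw [hN]
            refine ⟨⟨⟨hy, hc.le⟩, hmy⟩, ?_⟩
            show -(κ / 2 * om v y) ≤ fderiv ℝ g y (vort v y)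
            linarith
          rw [hs2 _ (mem_image_of_mem G hyN)]
          linarith

end Pool.Agent.U481.SW
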