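import Pool.Agent.U481.SW.Fld

/-!
The vorticity near the axis belongs to the Kato class.
-/

set_option autoImplicit false

open MeasureTheory Set Metric Filter Topology
open scoped ContDiff
open H459R3.NS Pool.Agent.W268.NS Pool.Agent.Q67.VD
open Pool.Agent.Q199.VD

namespace Pool.Agent.U481.SW

open Pool.Agent.Q85.CC Pool.Agent.Q85.CL Pool.Agent.Q85.VL Pool.Agent.Q151.CC
open Pool.Agent.TH305.AX

/-- The integral of the kernel over a cube. -/
noncomputable def KI (S : ℝ) : ℝ := ∫ y in closedBall (0 : V) S, 1 / ‖y‖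

lemma ki_eq (x : V) (S : ℝ) : ∫ y in closedBall x S, 1 / ‖y - x‖ = KI S := inv_trans x S

lemma ki_mono {S S' : ℝ} (h : S' ≤ S) : KI S' ≤ KI S := by
  have h1 := kato_mono (m := fun _ => 1) continuous_const (fun _ => zero_le_one) (0 : V) h
  simp only [sub_zero] at h1
  exact h1

lemma ki_pos {S : ℝ} (hS : 0 < S) : 0 < KI S := by
  have h1 : ∫ _ in closedBall (0 : V) S, (1 / S : ℝ) ≤ KI S := by
    unfold KI
    have hi := int_inv (0 : V) S (m := fun _ => 1) continuous_const
    simp only [sub_zero] at hi
    have h0 : ∫ y in closedBall (0 : V) S \ {0}, (1 / S : ℝ)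
        = ∫ y in closedBall (0 : V) S, (1 / S : ℝ) :=
      setIntegral_congr_set (sdiff_null_ae_eq_self (measure_singleton _))
    have h0' : ∫ y in closedBall (0 : V) S \ {0}, 1 / ‖y‖
        = ∫ y in closedBall (0 : V) S, 1 / ‖y‖ :=
      setIntegral_congr_set (sdiff_null_ae_eq_self (measure_singleton _))
    rw [← h0, ← h0']
    refine setIntegral_mono_on ?_ (hi.mono_set sdiff_subset)
      (measurableSet_closedBall.diff (measurableSet_singleton _)) fun y hy => ?_
    · exact (integrableOn_const (by
        exact measure_closedBall_lt_top.ne)).mono_set sdiff_subset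
    · have hy1 := hy.1
      rw [mem_closedBall, dist_zero_right] at hy1
      have hy2 : y ≠ 0 := hy.2
      exact one_div_le_one_div_of_le (norm_pos_iff.2 hy2) hy1
  have h2 : ∫ _ in closedBall (0 : V) S, (1 / S : ℝ)
      = (volume (closedBall (0 : V) S)).toReal * (1 / S) := by
    rw [setIntegral_const]
    rfl
  have h3 : 0 < (volume (closedBall (0 : V) S)).toReal :=
    ENNReal.toReal_pos (measure_closedBall_pos _ _ hS).ne' measure_closedBall_lt_top.ne
  have h4 : 0 < (volume (closedBall (0 : V) S)).toReal * (1 / S) := by positivity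
  linarith

lemma ki_small (μ : ℝ) (hμ : 0 < μ) : ∃ S, 0 < S ∧ KI S ≤ μ := inv_small μ hμ

/-- The part of a cube near the plane `y 0 = 0`. -/
lemma vol_slab (a : V) {r c : ℝ} (hr : 0 < r) (hc : 0 < c) :
    (volume {y : V | y ∈ closedBall a r ∧ |y 0| ≤ c}).toReal ≤ 8 * r ^ 2 * c := by
  have h1 : {y : V | y ∈ closedBall a r ∧ |y 0| ≤ c}
      ⊆ Icc (![-c, a 1 - r, a 2 - r] : V) (![c, a 1 + r, a 2 + r] : V) := by
    rintro y ⟨hy, hy0⟩
    rw [mem_closedBall, dist_pi_le_iff hr.le] at hy
    have h2 := hy 1
    have h3 := hy 2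
    rw [Real.dist_eq, abs_le] at h2 h3
    rw [abs_le] at hy0
    constructor
    · intro i
      fin_cases i
      · exact hy0.1
      · show a 1 - r ≤ y 1
        linarith
      · show a 2 - r ≤ y 2
        linarith
    · intro i
      fin_cases i
      · exact hy0.2
      · show y 1 ≤ a 1 + r
        linarith
      · show y 2 ≤ a 2 + r
        linarith
  have h2 := measure_mono (μ := volume) h1
  have h3 : volume (Icc (![-c, a 1 - r, a 2 - r] : V) (![c, a 1 + r, a 2 + r] : V))
      = ENNReal.ofReal (8 * r ^ 2 * c) := by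
    rw [Real.volume_Icc_pi, Fin.prod_univ_three]
    show ENNReal.ofReal (c - -c) * ENNReal.ofReal (a 1 + r - (a 1 - r)) *
      ENNReal.ofReal (a 2 + r - (a 2 - r)) = _
    rw [← ENNReal.ofReal_mul (by linarith), ← ENNReal.ofReal_mul (by nlinarith)]
    congr 1
    ring
  rw [h3] at h2
  exact ENNReal.toReal_le_of_le_ofReal (by positivity) h2

/-- A small neighbourhood of the axis does not matter. -/
lemma kat_axis {f : V → ℝ} (hf : Continuous f) (hf0 : ∀ y, 0 ≤ f y) (a : V) {r : ℝ} (hr : 0 < r) :
    ∃ δ : ℝ, 0 < δ ∧ ∀ (x : V) (S : ℝ), 0 < S → ‖x - a‖ + S ≤ r →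
      ∫ y in closedBall x S, f y * chi δ y / ‖y - x‖ ≤ √(KI S) := by
  obtain ⟨C₀, hC₀⟩ := ((isCompact_closedBall a r).image hf).isBounded.exists_norm_le
  obtain ⟨C, hCd⟩ : ∃ C, C = |C₀| + 1 := ⟨_, rfl⟩
  have hC : 0 < C := by rw [hCd]; positivity
  have hfC : ∀ y ∈ closedBall a r, f y ≤ C := fun y hy => by
    have h1 := hC₀ _ (mem_image_of_mem f hy)
    rw [Real.norm_eq_abs] at h1
    rw [hCd]
    linarith [le_abs_self (f y), le_abs_self C₀]
  obtain ⟨S₁, hS₁, hS₁'⟩ := ki_small (1 / C ^ 2) (by positivity)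
  obtain ⟨b, hbd⟩ : ∃ b, b = √(KI S₁) := ⟨_, rfl⟩
  have hb : 0 < b := by rw [hbd]; exact Real.sqrt_pos.2 (ki_pos hS₁)
  obtain ⟨ρ, hρ, hρ'⟩ := ki_small (b / (2 * C)) (by positivity)
  obtain ⟨c, hcd⟩ : ∃ c, c = b * ρ / (16 * C * r ^ 2) := ⟨_, rfl⟩
  have hc : 0 < c := by rw [hcd]; positivity
  refine ⟨c ^ 2 / 2, by positivity, ?_⟩
  intro x S hS hxS
  have hsub : closedBall x S ⊆ closedBall a r := by
    refine closedBall_subset_closedBall' ?_
    rw [dist_eq_norm]
    linarith
  have hfχ : Continuous fun y => f y * chi (c ^ 2 / 2) y := hf.mul (chi_cont _)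
  have i0 := int_inv x S hfχ
  have i1 : IntegrableOn (fun y => C * (1 / ‖y - x‖)) (closedBall x S) :=
    (int_inv x S (m := fun _ => 1) continuous_const).const_mul C
  by_cases hSS : S ≤ S₁
  · have h1 : ∫ y in closedBall x S, f y * chi (c ^ 2 / 2) y / ‖y - x‖
        ≤ ∫ y in closedBall x S, C * (1 / ‖y - x‖) := by
      refine setIntegral_mono_on i0 i1 measurableSet_closedBall fun y hy => ?_
      rw [mul_one_div]
      refine div_le_div_of_nonneg_right ?_ (norm_nonneg _)
      have h2 := hfC y (hsub hy)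
      have h3 := chi_le (c ^ 2 / 2) y
      have h4 := chi_nn (c ^ 2 / 2) y
      calc f y * chi (c ^ 2 / 2) y ≤ f y * 1 := mul_le_mul_of_nonneg_left h3 (hf0 y)
        _ ≤ C := by linarith
    rw [integral_const_mul, ki_eq] at h1
    refine h1.trans ?_
    have h5 := ki_pos hS
    have h6 : √(KI S) * √(KI S) = KI S := Real.mul_self_sqrt h5.le
    have h7 : √(KI S) ≤ 1 / C := by
      rw [show 1 / C = √(1 / C ^ 2) by
        rw [show (1 : ℝ) / C ^ 2 = (1 / C) ^ 2 by ring, Real.sqrt_sq (by positivity)]]
      exact Real.sqrt_le_sqrt ((ki_mono hSS).trans hS₁')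
    calc C * KI S = C * √(KI S) * √(KI S) := by rw [mul_assoc, h6]
      _ ≤ C * (1 / C) * √(KI S) := by gcongr
      _ = √(KI S) := by field_simp
  · push Not at hSS
    have hbS : b ≤ √(KI S) := by
      rw [hbd]
      exact Real.sqrt_le_sqrt (ki_mono hSS.le)
    refine le_trans ?_ hbS
    obtain ⟨Z, hZd⟩ : ∃ Z : Set V, Z = {y : V | y ∈ closedBall a r ∧ |y 0| ≤ c} := ⟨_, rfl⟩
    have hZm : MeasurableSet Z := by
      rw [hZd]
      exact measurableSet_closedBall.inter
        (isClosed_le (continuous_apply 0).abs continuous_const).measurableSet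
    have hZv : (volume Z).toReal ≤ 8 * r ^ 2 * c := by rw [hZd]; exact vol_slab a hr hc
    have hZf : volume Z ≠ ⊤ := by
      rw [hZd]
      exact ((measure_mono fun y hy => hy.1).trans_lt (measure_closedBall_lt_top (x := a) (r := r))).ne
    have j1 : IntegrableOn ((closedBall x ρ).indicator fun y => C * (1 / ‖y - x‖))
        (closedBall x S) := i1.indicator measurableSet_closedBall
    have j2 : IntegrableOn (Z.indicator fun _ => C / ρ) (closedBall x S) :=
      (integrableOn_const measure_closedBall_lt_top.ne).indicator hZm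
    have h1 : ∫ y in closedBall x S, f y * chi (c ^ 2 / 2) y / ‖y - x‖
        ≤ ∫ y in closedBall x S, ((closedBall x ρ).indicator (fun y => C * (1 / ‖y - x‖)) y
          + Z.indicator (fun _ => C / ρ) y) := by
      refine setIntegral_mono_on i0 (j1.add j2) measurableSet_closedBall fun y hy => ?_
      have h2 := hfC y (hsub hy)
      have h3 := chi_le (c ^ 2 / 2) y
      have h4 := chi_nn (c ^ 2 / 2) y
      have h5 : f y * chi (c ^ 2 / 2) y ≤ C := by
        calc f y * chi (c ^ 2 / 2) y ≤ f y * 1 := mul_le_mul_of_nonneg_left h3 (hf0 y)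
          _ ≤ C := by linarith
      have n1 : 0 ≤ Z.indicator (fun _ => C / ρ) y :=
        indicator_nonneg (fun _ _ => by positivity) y
      have n2 : 0 ≤ (closedBall x ρ).indicator (fun y => C * (1 / ‖y - x‖)) y :=
        indicator_nonneg (fun _ _ => by positivity) y
      by_cases hyρ : y ∈ closedBall x ρ
      · rw [indicator_of_mem hyρ]
        have h6 : f y * chi (c ^ 2 / 2) y / ‖y - x‖ ≤ C * (1 / ‖y - x‖) := by
          rw [mul_one_div]
          exact div_le_div_of_nonneg_right h5 (norm_nonneg _)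
        linarith
      · have hyn : ρ < ‖y - x‖ := by
          rw [mem_closedBall, dist_eq_norm, not_le] at hyρ
          exact hyρ
        by_cases hyZ : y ∈ Z
        · rw [indicator_of_mem hyZ]
          have h6 : f y * chi (c ^ 2 / 2) y / ‖y - x‖ ≤ C / ρ :=
            div_le_div₀ hC.le h5 hρ hyn.le
          linarith
        · have h7 : chi (c ^ 2 / 2) y = 0 := by
            refine chi_zero (by positivity) ?_
            have h8 : c < |y 0| := by
              by_contra hcon
              push Not at hcon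
              apply hyZ
              rw [hZd]
              exact ⟨hsub hy, hcon⟩
            have h9 : c ^ 2 < y 0 ^ 2 := by
              rw [← sq_abs (y 0)]
              exact pow_lt_pow_left₀ h8 hc.le two_ne_zero
            unfold sg
            nlinarith [sq_nonneg (y 1)]
          rw [h7, mul_zero, zero_div]
          positivity
    refine h1.trans ?_
    rw [integral_add j1 j2]
    have h10 : ∫ y in closedBall x S, (closedBall x ρ).indicator (fun y => C * (1 / ‖y - x‖)) y
        ≤ C * KI ρ := by
      rw [setIntegral_indicator measurableSet_closedBall]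
      have h11 : ∫ y in closedBall x S ∩ closedBall x ρ, C * (1 / ‖y - x‖)
          ≤ ∫ y in closedBall x ρ, C * (1 / ‖y - x‖) :=
        setIntegral_mono_set ((int_inv x ρ (m := fun _ => 1) continuous_const).const_mul C)
          (Eventually.of_forall fun y => by
            show 0 ≤ C * (1 / ‖y - x‖)
            positivity) inter_subset_right.eventuallyLE
      rw [integral_const_mul (μ := volume.restrict (closedBall x ρ)), ki_eq] at h11
      exact h11
    have h12 : ∫ y in closedBall x S, Z.indicator (fun _ => C / ρ) y ≤ 8 * r ^ 2 * c * (C / ρ) := by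
      rw [setIntegral_indicator hZm, setIntegral_const, smul_eq_mul]
      refine mul_le_mul_of_nonneg_right ?_ (by positivity)
      refine le_trans ?_ hZv
      exact ENNReal.toReal_mono hZf (measure_mono inter_subset_right)
    have h13 : C * KI ρ ≤ b / 2 := by
      calc C * KI ρ ≤ C * (b / (2 * C)) := mul_le_mul_of_nonneg_left hρ' hC.le
        _ = b / 2 := by field_simp
    have h14 : 8 * r ^ 2 * c * (C / ρ) = b / 2 := by
      rw [hcd]
      field_simp
      ring
    linarith

end Pool.Agent.U481.SW
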