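import Pool.Agent.U481.SW.Kat
import Pool.Agent.TH305.AX.RotD

/-!
Axisymmetric solutions: vortex lines on the same level of the swirl.
-/

set_option autoImplicit false

open MeasureTheory Set Metric Filter Topology
open scoped ContDiff
open H459R3.NS Pool.Agent.W268.NS Pool.Agent.Q67.VD
open Pool.Agent.Q199.VD

namespace Pool.Agent.U481.SW

open Pool.Agent.Q85.CC Pool.Agent.Q85.CL Pool.Agent.Q85.VL Pool.Agent.Q151.CC
open Pool.Agent.TH305.AX

/-- The swirl is constant along the vortex lines of an axisymmetric field. -/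
lemma axi_grad {v : V → V} (hv : ContDiff ℝ ∞ v) {x : V}
    (ha : ∀ᶠ θ in 𝓝 (0 : ℝ), v (rot θ x) = rot θ (v x)) :
    fderiv ℝ (circ v) x (vort v x) = 0 := by
  have hgen : ∀ i : Fin 3, HasDerivAt (fun θ => rot θ (v x) i)
      (x 0 * pd 1 (fun y => v y i) x - x 1 * pd 0 (fun y => v y i) x) 0 := by
    intro i
    have h1 : DifferentiableAt ℝ (fun y => v y i) (rot 0 x) :=
      ((sm_cmp hv i).differentiable (by norm_cast)) _
    have h2 := h1.hasFDerivAt.comp_hasDerivAt (0 : ℝ) (rot_hd x)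
    rw [rot_zero, pd_vec] at h2
    have e : ∑ j, (![-x 1, x 0, 0] : V) j * pd j (fun y => v y i) x
        = x 0 * pd 1 (fun y => v y i) x - x 1 * pd 0 (fun y => v y i) x := by
      rw [Fin.sum_univ_three]
      simp
      ring
    rw [e] at h2
    refine h2.congr_of_eventuallyEq ?_
    filter_upwards [ha] with θ hθ
    show rot θ (v x) i = v (rot θ x) i
    rw [hθ]
  have h3 := hasDerivAt_pi.1 (rot_hd (v x))
  have k0 := (hgen 0).unique (h3 0)
  have k1 := (hgen 1).unique (h3 1)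
  have k2 := (hgen 2).unique (h3 2)
  have k0' : x 0 * pd 1 (fun y => v y 0) x - x 1 * pd 0 (fun y => v y 0) x = -v x 1 := k0
  have k1' : x 0 * pd 1 (fun y => v y 1) x - x 1 * pd 0 (fun y => v y 1) x = v x 0 := k1
  have k2' : x 0 * pd 1 (fun y => v y 2) x - x 1 * pd 0 (fun y => v y 2) x = 0 := k2
  rw [fderiv_sum, Fin.sum_univ_three]
  simp only [pd_circ hv]
  have w0 : vort v x 0 = pd 1 (fun y => v y 2) x - pd 2 (fun y => v y 1) x := rfl
  have w1 : vort v x 1 = pd 2 (fun y => v y 0) x - pd 0 (fun y => v y 2) x := rfl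
  have w2 : vort v x 2 = pd 0 (fun y => v y 1) x - pd 1 (fun y => v y 0) x := rfl
  rw [w0, w1, w2]
  have e1 : ((0 : Fin 3) = 1) = False := by simp
  have e2 : ((0 : Fin 3) = 2) = False := by simp
  have e3 : ((1 : Fin 3) = 0) = False := by simp
  have e4 : ((1 : Fin 3) = 2) = False := by simp
  simp only [e1, e2, e3, e4, if_true, if_false]
  generalize pd 0 (fun y => v y 0) x = a00 at *
  generalize pd 1 (fun y => v y 0) x = a10 at *
  generalize pd 2 (fun y => v y 0) x = a20 at *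
  generalize pd 0 (fun y => v y 1) x = a01 at *
  generalize pd 1 (fun y => v y 1) x = a11 at *
  generalize pd 2 (fun y => v y 1) x = a21 at *
  generalize pd 0 (fun y => v y 2) x = a02 at *
  generalize pd 1 (fun y => v y 2) x = a12 at *
  linear_combination (a12 - a21) * k0' + (a20 - a02) * k1' + (a01 - a10) * k2'

lemma rot_smul (θ c : ℝ) (x : V) : rot θ (c • x) = c • rot θ x := (rotL θ).map_smul c x

lemma circ_smul {v w : V → V} {c : ℝ} {x : V} (h : w x = c • v x) : circ w x = c * circ v x := by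
  unfold circ
  rw [h]
  simp only [Pi.smul_apply, smul_eq_mul]
  ring

lemma rot_cont0 (x : V) : ContinuousAt (fun θ => rot θ x) 0 := (rot_hd x).continuousAt

/-- Locally axisymmetric solutions: at a singular point, on one level of the swirl. -/
theorem levD {ν T E : ℝ} {Ω : Set V} {u : ℝ → V → V} {p : ℝ → V → ℝ} (hν : 0 < ν)
    (h : DSl ν T E Ω u p)
    (hax : ∀ t ∈ Ioo 0 T, ∀ (θ : ℝ), ∀ x ∈ Ω, rot θ x ∈ Ω → u t (rot θ x) = rot θ (u t x))
    {a : V} (ha : a ∈ Ω) (hs : Sing T u a) {T₀ κ R : ℝ} {m : ℝ → V → ℝ} (hT0 : 0 ≤ T₀)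
    (hT₀ : T₀ < T) (hκ : 0 < κ) (hR : 0 < R) (hmc : ∀ t ∈ Ioo T₀ T, Continuous (m t))
    (hm0 : ∀ t ∈ Ioo T₀ T, ∀ y, 0 ≤ m t y) (hK : Kato T₀ T a R m) :
    ∃ t ∈ Ioo T₀ T, ∀ g : V → ℝ, ContDiff ℝ 1 g → (∀ y z, |g y - g z| ≤ len (y - z)) →
      ∃ x y : V, ‖x - a‖ ≤ R ∧ ‖y - a‖ ≤ R ∧ 0 < sg x ∧ 0 < sg y ∧
        circ (u t) x = circ (u t) y ∧ m t x < om (u t) x ∧ m t y < om (u t) y ∧
        fderiv ℝ g x (vort (u t) x) < κ * om (u t) x ∧
        -(κ * om (u t) y) < fderiv ℝ g y (vort (u t) y) := by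
  by_contra hcon
  push Not at hcon
  obtain ⟨R', hR', hRR, hsub⟩ := small_ball h.openO ha hR
  obtain ⟨E', v, q, hL, hv⟩ := Pool.Agent.Q284.CL.dom ν T E Ω u p hν hs.pos h a R' hR' hsub
  have hνi : 0 < ν⁻¹ := inv_pos.2 hν
  have hνν : ν * ν⁻¹ = 1 := mul_inv_cancel₀ hν.ne'
  have hIoo : ∀ t ∈ Ioo T₀ T, t ∈ Ioo 0 T := fun t ht => ⟨hT0.trans_lt ht.1, ht.2⟩
  have hI' : ∀ t ∈ Ioo T₀ T, ν * t ∈ Ioo 0 (ν * T) := fun t ht =>
    ⟨mul_pos hν (hIoo t ht).1, mul_lt_mul_of_pos_left ht.2 hν⟩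
  have hsm : ∀ t ∈ Ioo T₀ T, SM (v (ν * t)) := fun t ht => slice_u hL.toLEq (hI' t ht)
  have hevy : ∀ t ∈ Ioo T₀ T, ∀ y, ‖y - a‖ ≤ R' / 2 → ∀ᶠ z in 𝓝 y, v (ν * t) z = ν⁻¹ • u t z := by
    intro t ht y hy
    refine ball_ev (a := a) (R := R') (fun z hz => hv t (hIoo t ht) z hz) (by
      rw [Metric.mem_ball, dist_eq_norm]
      linarith)
  have hvt : ∀ t ∈ Ioo T₀ T, ∀ y, ‖y - a‖ ≤ R' / 2 →
      vort (v (ν * t)) y = ν⁻¹ • vort (u t) y := fun t ht y hy => vort_evD (hevy t ht y hy)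
  have hom : ∀ t ∈ Ioo T₀ T, ∀ y, ‖y - a‖ ≤ R' / 2 →
      om (v (ν * t)) y = ν⁻¹ * om (u t) y := fun t ht y hy => om_evD hνi.le (hevy t ht y hy)
  -- the swirl is constant along the vortex lines
  have hgr : ∀ t ∈ Ioo T₀ T, ∀ y ∈ closedBall a (R' / 2),
      fderiv ℝ (circ (v (ν * t))) y (vort (v (ν * t)) y) = 0 := by
    intro t ht y hy
    have hyb : y ∈ ball a R' := closedBall_subset_ball (by linarith) hy
    refine axi_grad (contDiff_pi.2 (hsm t ht)) ?_
    have h1 : ∀ᶠ θ in 𝓝 (0 : ℝ), rot θ y ∈ ball a R' := by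
      refine (rot_cont0 y).eventually_mem ?_
      rw [rot_zero]
      exact isOpen_ball.mem_nhds hyb
    filter_upwards [h1] with θ hθ
    have hbs : ball a R' ⊆ Ω := ball_subset_closedBall.trans hsub
    rw [hv t (hIoo t ht) _ hθ, hv t (hIoo t ht) _ hyb,
      hax t (hIoo t ht) θ y (hbs hyb) (hbs hθ), rot_smul]
  -- the neighbourhoods of the axis
  have hδ : ∀ t, ∃ δ : ℝ, 0 < δ ∧ (t ∈ Ioo T₀ T → ∀ (x : V) (S : ℝ), 0 < S →
      ‖x - a‖ + S ≤ R' / 2 → ∫ y in closedBall x S,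
        om (v (ν * t)) y * chi δ y / ‖y - x‖ ≤ √(KI S)) := by
    intro t
    by_cases ht : t ∈ Ioo T₀ T
    · obtain ⟨δ, hδ, h1⟩ := kat_axis (om_contL (hsm t ht)) (om_nnL _) a (r := R' / 2)
        (by positivity)
      exact ⟨δ, hδ, fun _ => h1⟩
    · exact ⟨1, one_pos, fun h => absurd h ht⟩
  choose δ hδ0 hδ1 using hδ
  obtain ⟨M, hM⟩ : ∃ M : ℝ → V → ℝ, M = fun t y =>
      (1 + κ) * (m t y + 1 + ν * (om (v (ν * t)) y * chi (δ t) y)) := ⟨_, rfl⟩
  have hMc : ∀ t ∈ Ioo T₀ T, Continuous (M t) := by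
    intro t ht
    rw [hM]
    exact continuous_const.mul (((hmc t ht).add continuous_const).add
      (continuous_const.mul ((om_contL (hsm t ht)).mul (chi_cont _))))
  have hM0 : ∀ t ∈ Ioo T₀ T, ∀ y, 0 ≤ M t y := by
    intro t ht y
    rw [hM]
    have h1 := hm0 t ht y
    have h2 := om_nnL (v (ν * t)) y
    have h3 := chi_nn (δ t) y
    positivity
  have hMK : Kato T₀ T a (R' / 2) M := by
    intro μ hμ
    obtain ⟨S₁, hS₁, h1⟩ := hK (μ / (3 * (1 + κ))) (by positivity)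
    obtain ⟨S₂, hS₂, h2⟩ := ki_small (μ / (3 * (1 + κ))) (by positivity)
    obtain ⟨S₃, hS₃, h3⟩ := ki_small ((μ / (3 * (1 + κ) * ν)) ^ 2) (by positivity)
    refine ⟨min S₁ (min S₂ S₃), lt_min hS₁ (lt_min hS₂ hS₃), fun t ht x S hS hSS hxS => ?_⟩
    have k1 := h1 t ht x S hS (hSS.trans (min_le_left _ _)) (by linarith)
    have k2 : KI S ≤ μ / (3 * (1 + κ)) :=
      (ki_mono (hSS.trans ((min_le_right _ _).trans (min_le_left _ _)))).trans h2
    have k3 : √(KI S) ≤ μ / (3 * (1 + κ) * ν) := by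
      rw [← Real.sqrt_sq (show 0 ≤ μ / (3 * (1 + κ) * ν) by positivity)]
      exact Real.sqrt_le_sqrt
        ((ki_mono (hSS.trans ((min_le_right _ _).trans (min_le_right _ _)))).trans h3)
    have k4 := hδ1 t ht x S hS hxS
    have e1 : ∀ y, M t y / ‖y - x‖ = (1 + κ) * (m t y / ‖y - x‖) + (1 + κ) * (1 / ‖y - x‖)
        + (1 + κ) * ν * (om (v (ν * t)) y * chi (δ t) y / ‖y - x‖) := by
      intro y
      rw [hM]
      show (1 + κ) * (m t y + 1 + ν * (om (v (ν * t)) y * chi (δ t) y)) / ‖y - x‖ = _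
      ring
    simp only [e1]
    have i1 := int_inv x S (hmc _ ht)
    have i2 := int_inv x S (m := fun _ => 1) continuous_const
    have i3 := int_inv x S (m := fun y => om (v (ν * t)) y * chi (δ t) y)
      ((om_contL (hsm t ht)).mul (chi_cont (δ t)))
    have j1 : IntegrableOn (fun y => (1 + κ) * (m t y / ‖y - x‖)) (closedBall x S) :=
      i1.const_mul _
    have j2 : IntegrableOn (fun y => (1 + κ) * (1 / ‖y - x‖)) (closedBall x S) := i2.const_mul _
    have j3 : IntegrableOn (fun y => (1 + κ) * ν * (om (v (ν * t)) y * chi (δ t) y / ‖y - x‖))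
      (closedBall x S) := i3.const_mul _
    have j12 : IntegrableOn (fun y => (1 + κ) * (m t y / ‖y - x‖) + (1 + κ) * (1 / ‖y - x‖))
      (closedBall x S) := j1.add j2
    rw [integral_add j12 j3, integral_add j1 j2, integral_const_mul, integral_const_mul,
      integral_const_mul, ki_eq]
    have c1 : (1 + κ) * ∫ y in closedBall x S, m t y / ‖y - x‖ ≤ μ / 3 := by
      calc _ ≤ (1 + κ) * (μ / (3 * (1 + κ))) := mul_le_mul_of_nonneg_left k1 (by positivity)
        _ = μ / 3 := by field_simp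
    have c2 : (1 + κ) * KI S ≤ μ / 3 := by
      calc _ ≤ (1 + κ) * (μ / (3 * (1 + κ))) := mul_le_mul_of_nonneg_left k2 (by positivity)
        _ = μ / 3 := by field_simp
    have c3 : (1 + κ) * ν * ∫ y in closedBall x S, om (v (ν * t)) y * chi (δ t) y / ‖y - x‖
        ≤ μ / 3 := by
      calc _ ≤ (1 + κ) * ν * (μ / (3 * (1 + κ) * ν)) :=
            mul_le_mul_of_nonneg_left (k4.trans k3) (by positivity)
        _ = μ / 3 := by field_simp
    linarith
  refine hs.not_bdd (Pool.Agent.U481.VL.lyapD hν hs.pos h (κ := κ / 2) (R := R' / 2) hT0 hT₀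
    (by positivity) (by positivity) ((closedBall_subset_closedBall (by linarith)).trans hsub)
    hMc hM0 hMK fun t ht => ?_)
  obtain ⟨g, hg, hlip, hH⟩ := hcon t ht
  have hG : ContDiff ℝ ∞ (circ (v (ν * t))) := sm_circ (contDiff_pi.2 (hsm t ht))
  obtain ⟨W, hW1, hW2, hW3⟩ := field_t (hsm t ht) hG (a := a) (R := R' / 2) (κ := κ) (δ := δ t)
    (η := ν⁻¹) hκ (hδ0 t) hνi (hgr t ht) (m := fun y => ν⁻¹ * m t y)
    (continuous_const.mul (hmc t ht)) (fun y => mul_nonneg hνi.le (hm0 t ht y)) hg hlip (by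
      intro x hx y hy hsx hsy hxy hmx hmy
      rw [mem_closedBall, dist_eq_norm] at hx hy
      rw [hom t ht x hx] at hmx ⊢
      rw [hom t ht y hy] at hmy ⊢
      rw [hvt t ht x hx, hvt t ht y hy, map_smul, map_smul, smul_eq_mul, smul_eq_mul]
      have hcx : circ (v (ν * t)) x = ν⁻¹ * circ (u t) x := circ_smul (hevy t ht x hx).self_of_nhds
      have hcy : circ (v (ν * t)) y = ν⁻¹ * circ (u t) y := circ_smul (hevy t ht y hy).self_of_nhds
      rw [hcx, hcy] at hxy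
      by_cases hc : κ * om (u t) x ≤ fderiv ℝ g x (vort (u t) x)
      · left
        calc κ * (ν⁻¹ * om (u t) x) = ν⁻¹ * (κ * om (u t) x) := by ring
          _ ≤ _ := mul_le_mul_of_nonneg_left hc hνi.le
      · right
        push Not at hc
        have h1 := hH x y (by linarith) (by linarith) hsx hsy (mul_left_cancel₀ hνi.ne' hxy)
          (lt_of_mul_lt_mul_left hmx hνi.le) (lt_of_mul_lt_mul_left hmy hνi.le) hc
        calc ν⁻¹ * fderiv ℝ g y (vort (u t) y) ≤ ν⁻¹ * -(κ * om (u t) y) :=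
              mul_le_mul_of_nonneg_left h1 hνi.le
          _ = -(κ * (ν⁻¹ * om (u t) y)) := by ring)
  have hcont : Continuous fun y => ν • W y := by
    have := hW1.cont
    fun_prop
  refine ⟨fun y => ν • W y, g, hcont, fun F hF hts => ?_, fun y hy => ?_,
    hg, hlip, fun y hy => ?_⟩
  · have h1 := hW1.div F hF hts
    have e : ∀ y, fderiv ℝ F y (ν • W y) = ν * fderiv ℝ F y (W y) := by
      intro y
      rw [map_smul, smul_eq_mul]
    simp only [e]
    rw [integral_const_mul, h1, mul_zero]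
  · show len (ν • W y) ≤ om (u t) y
    rw [len_smulI, abs_of_pos hν]
    have h1 := hW2 y
    rw [hom t ht y hy] at h1
    calc ν * len (W y) ≤ ν * (ν⁻¹ * om (u t) y) := mul_le_mul_of_nonneg_left h1 hν.le
      _ = om (u t) y := by rw [← mul_assoc, hνν, one_mul]
  · show κ / 2 * om (u t) y ≤ fderiv ℝ g y (ν • W y) + M t y
    have h1 := hW3 y (by rwa [mem_closedBall, dist_eq_norm])
    rw [hom t ht y hy] at h1
    have h2 := mul_le_mul_of_nonneg_left h1 hν.le
    rw [map_smul, smul_eq_mul, hM]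
    show κ / 2 * om (u t) y ≤ ν * fderiv ℝ g y (W y)
      + (1 + κ) * (m t y + 1 + ν * (om (v (ν * t)) y * chi (δ t) y))
    rw [hom t ht y hy]
    have e2 : ν * (κ / 2 * (ν⁻¹ * om (u t) y)) = κ / 2 * om (u t) y := by
      calc _ = (ν * ν⁻¹) * (κ / 2 * om (u t) y) := by ring
        _ = _ := by rw [hνν, one_mul]
    have e3 : ν * (fderiv ℝ g y (W y) + (1 + κ) * (ν⁻¹ * m t y + ν⁻¹ +
          ν⁻¹ * om (u t) y * chi (δ t) y))
        = ν * fderiv ℝ g y (W y) + (1 + κ) * ((ν * ν⁻¹) * m t y + (ν * ν⁻¹) +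
          ν * (ν⁻¹ * om (u t) y * chi (δ t) y)) := by ring
    rw [e2, e3, hνν, one_mul] at h2
    exact h2

end Pool.Agent.U481.SW
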